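import Pool.Agent.N158.PC.Stm

/-! Leaf RAT: `P / (1+x)^m` reaches `0` with `m` odd steps. -/

namespace Pool.Agent.N690.PC

open Polynomial Pool.Agent.N158.PC

theorem y_inv : ∃ u : A, u * y = 1 := by
  refine ⟨(y : PowerSeries (ZMod 2))⁻¹, ?_⟩
  apply PowerSeries.inv_mul_cancel
  simp [y, x]

theorem zmod2 {a : ZMod 2} (h : a ≠ 0) : a = 1 := by
  revert a
  decide

/-- a polynomial with `P(1) = 1` is `X ^ j * P1` with `P1(0) = 1`, `P1(1) = 1` -/
theorem split (P : (ZMod 2)[X]) (h1 : P.eval 1 = 1) : ∃ (j : ℕ) (P1 : (ZMod 2)[X]),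
    P = X ^ j * P1 ∧ P1.coeff 0 = 1 ∧ P1.eval 1 = 1 ∧ j + P1.natDegree = P.natDegree := by
  have hP : P ≠ 0 := by
    rintro rfl
    simp at h1
  obtain ⟨q, hq, hd⟩ := exists_eq_pow_rootMultiplicity_mul_and_not_dvd P hP 0
  rw [map_zero, sub_zero] at hq hd
  set j := P.rootMultiplicity 0 with hj
  have hq0 : q ≠ 0 := by
    rintro rfl
    exact hd (dvd_zero _)
  refine ⟨j, q, hq, ?_, ?_, ?_⟩
  · rw [X_dvd_iff] at hd
    exact zmod2 hd
  · rw [hq, eval_mul, eval_pow, eval_X, one_pow, one_mul] at h1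
    exact h1
  · rw [hq, natDegree_mul (pow_ne_zero _ X_ne_zero) hq0, natDegree_X_pow]

theorem core (m : ℕ) : ∀ P : (ZMod 2)[X], P.natDegree ≤ m + 1 → P.eval 1 = 1 →
    ∀ g : A, y ^ (m + 1) * g = (P : A) → ∀ N : ℕ, (m + 1) * (m + 1 + 3) / 2 ≤ N →
      Reach g N (m + 1) 0 := by
  obtain ⟨u, hu⟩ := y_inv
  have huk : ∀ k : ℕ, u ^ k * y ^ k = 1 := fun k => by rw [← mul_pow, hu, one_pow]
  induction m with
  | zero =>
    intro P hP h1 g hg N hN
    obtain ⟨j, P1, rfl, h2, h3, h4⟩ := split P h1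
    -- `P1 = 1`
    have hP1 : P1 = 1 := by
      have hd : P1.natDegree ≤ 1 := by omega
      have e := eq_X_add_C_of_natDegree_le_one hd
      rw [h2] at e
      have h5 : P1.coeff 1 = 0 := by
        rw [e] at h3
        simp only [eval_add, eval_mul, eval_C, eval_X, mul_one] at h3
        exact add_eq_right.1 h3
      rw [h5, map_zero, zero_mul, zero_add, map_one] at e
      exact e
    subst hP1
    rw [zero_add, pow_one] at hg
    have hg1 : g = x ^ j * u := by
      have : u * (y * g) = u * ((X ^ j * 1 : (ZMod 2)[X]) : A) := by rw [hg]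
      rw [← mul_assoc, hu, one_mul, mul_one, coe_pow, coe_X] at this
      rw [this]
      exact mul_comm _ _
    have h5 : Reach u ((N - j - 1) + 1) (0 + 1) 0 := by
      refine Reach.one (f' := 0) ?_ (reach_zero _)
      rw [mul_comm, hu, mul_zero]
      linear_combination two_eq
    refine ((reach_pow j u).trans h5).congr hg1.symm ?_ (by omega) rfl
    have : j ≤ 1 := by omega
    have : 2 ≤ N := by simpa using hN
    omega
  | succ m ih =>
    intro P hP h1 g hg N hN
    obtain ⟨j, P1, rfl, h2, h3, h4⟩ := split P h1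
    obtain ⟨P2, hP2⟩ : (X : (ZMod 2)[X]) ∣ P1 + (1 + X) ^ (m + 1) := by
      rw [X_dvd_iff, coeff_add, h2, coeff_zero_eq_eval_zero]
      simp
      decide
    have hd1 : P1.natDegree ≤ m + 2 := by omega
    have hd2 : ((1 + X : (ZMod 2)[X]) ^ (m + 1)).natDegree ≤ m + 2 := by
      refine natDegree_pow_le.trans ?_
      have : (1 + X : (ZMod 2)[X]).natDegree ≤ 1 := by
        refine (natDegree_add_le _ _).trans ?_
        simp
      nlinarith
    have hd3 : P2.natDegree ≤ m + 1 := by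
      by_cases h0 : P2 = 0
      · rw [h0]; simp
      · have h5 : (P1 + (1 + X) ^ (m + 1)).natDegree ≤ m + 2 :=
          (natDegree_add_le _ _).trans (max_le hd1 hd2)
        rw [hP2, natDegree_mul X_ne_zero h0, natDegree_X] at h5
        omega
    have hev : P2.eval 1 = 1 := by
      have h5 := congrArg (eval 1) hP2
      rw [eval_add, h3, eval_pow, eval_add, eval_one, eval_X, eval_mul, eval_X, one_mul] at h5
      have h6 : ((1 : ZMod 2) + 1) = 0 := by decide
      rw [h6, zero_pow (by omega), add_zero] at h5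
      exact h5.symm
    set g1 : A := u ^ (m + 2) * (P1 : A) with hg1
    set g2 : A := u ^ (m + 1) * (P2 : A) with hg2
    have e1 : g = x ^ j * g1 := by
      have h5 : u ^ (m + 2) * (y ^ (m + 2) * g) = u ^ (m + 2) * ((X ^ j * P1 : (ZMod 2)[X]) : A) := by
        rw [← hg]
      rw [← mul_assoc, huk, one_mul, coe_mul, coe_pow, coe_X] at h5
      rw [h5, hg1]
      change u ^ (m + 2) * (x ^ j * (P1 : A)) = x ^ j * (u ^ (m + 2) * (P1 : A))
      ring
    have e2 : y ^ (m + 1) * g2 = (P2 : A) := by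
      rw [hg2, ← mul_assoc, mul_comm (y ^ (m + 1)), huk, one_mul]
    have e3 : y * g1 + 1 = x * g2 := by
      have h5 : ((P1 + (1 + X) ^ (m + 1) : (ZMod 2)[X]) : A) = ((X * P2 : (ZMod 2)[X]) : A) := by
        rw [hP2]
      rw [coe_add, coe_pow, coe_add, coe_one, coe_X, coe_mul, coe_X] at h5
      change (P1 : A) + y ^ (m + 1) = x * (P2 : A) at h5
      have h6 : y * g1 = u ^ (m + 1) * (P1 : A) := by
        rw [hg1, pow_succ u (m + 1)]
        linear_combination (u ^ (m + 1) * (P1 : A)) * hu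
      rw [h6, hg2]
      linear_combination u ^ (m + 1) * h5 - huk (m + 1)
    have hjm : j ≤ m + 2 := by omega
    have hNN : (m + 1) * (m + 1 + 3) / 2 ≤ N - j - 1 := by
      have e4 : (m + 1 + 1) * (m + 1 + 1 + 3) = (m + 1) * (m + 1 + 3) + 2 * (m + 3) := by ring
      rw [e4, Nat.add_mul_div_left _ _ (by norm_num)] at hN
      omega
    have h5 := ih P2 hd3 hev g2 e2 (N - j - 1) hNN
    have h6 : Reach g1 ((N - j - 1) + 1) (m + 1 + 1) 0 := Reach.one e3 h5
    refine ((reach_pow j g1).trans h6).congr e1.symm ?_ (by omega) rfl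
    have e4 : (m + 1 + 1) * (m + 1 + 1 + 3) = (m + 1) * (m + 1 + 3) + 2 * (m + 3) := by ring
    rw [e4, Nat.add_mul_div_left _ _ (by norm_num)] at hN
    omega

theorem t_RAT : T_RAT := by
  intro m hm P hP h1 g hg N hN
  obtain ⟨m, rfl⟩ : ∃ k, m = k + 1 := ⟨m - 1, by omega⟩
  exact core m P hP h1 g hg N hN

end Pool.Agent.N690.PC
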