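import Mathlib
import Pool.Agent.N753.DR.Stm6
import Pool.Agent.N262.DR.Places
import Pool.Agent.N340.DR.Comb

/-!
# PC/POLYV: polynomials are rarely small at a given prime
-/

set_option autoImplicit false

namespace Pool.Agent.N690.PC.PolyV

open NumberField IsDedekindDomain Module Pool.Agent.N753.DR

section one

variable {O : Type*} [CommRing O] [IsDedekindDomain O]

lemma mem_of_mul_mem (v : HeightOneSpectrum O) {z y : O} {g e : ℕ} (hz : z ∉ v.asIdeal ^ g)
    (h : z * y ∈ v.asIdeal ^ e) : y ∈ v.asIdeal ^ (e - g) := by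
  by_contra hy
  rcases Nat.lt_or_ge e g with hlt | hge
  · rw [Nat.sub_eq_zero_of_le hlt.le, pow_zero, Ideal.one_eq_top] at hy
    exact hy trivial
  · rw [← HeightOneSpectrum.intValuation_le_pow_iff_mem, not_le] at hz hy
    rw [← HeightOneSpectrum.intValuation_le_pow_iff_mem, map_mul] at h
    have h1 := mul_lt_mul'' hz hy (by exact zero_le) (by exact zero_le)
    rw [← WithZero.exp_add] at h1
    have h2 : (-(g : ℤ) + -((e - g : ℕ) : ℤ)) = -(e : ℤ) := by
      rw [Nat.cast_sub hge]; ring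
    rw [h2] at h1
    exact absurd h (not_le.mpr h1)

open Polynomial in
/-- a polynomial which is small at enough points has a small leading coefficient -/
lemma coeff_mem (v : HeightOneSpectrum O) (g : ℕ) : ∀ (D e : ℕ) (h : O[X]) (S : Finset O),
    h.natDegree ≤ D → D < S.card → (∀ x ∈ S, ∀ y ∈ S, x ≠ y → x - y ∉ v.asIdeal ^ g) →
    (∀ x ∈ S, h.eval x ∈ v.asIdeal ^ e) → h.coeff D ∈ v.asIdeal ^ (e - D * g) := by
  classical
  intro D
  induction D with
  | zero =>
    intro e h S hD hS hsep hval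
    obtain ⟨x, hx⟩ := Finset.card_pos.mp hS
    have h1 : h = C (h.coeff 0) := eq_C_of_natDegree_le_zero hD
    have h2 := hval x hx
    rw [h1, eval_C] at h2
    simpa using h2
  | succ D ih =>
    intro e h S hD hS hsep hval
    obtain ⟨x, hx⟩ := Finset.card_pos.mp (lt_trans (Nat.succ_pos D) hS)
    obtain ⟨h1, hh1⟩ : ∃ h1, h1 = h /ₘ (X - C x) := ⟨_, rfl⟩
    have e1 : h = C (h.eval x) + (X - C x) * h1 := by
      rw [← modByMonic_X_sub_C_eq_C_eval, hh1]
      exact (modByMonic_add_div h (X - C x)).symm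
    have hdeg : h1.natDegree ≤ D := by
      rw [hh1, natDegree_divByMonic _ (monic_X_sub_C x), natDegree_X_sub_C]
      omega
    have e2 : h.coeff (D + 1) = h1.coeff D := by
      rw [e1, coeff_add, coeff_C_succ, coeff_X_sub_C_mul,
        coeff_eq_zero_of_natDegree_lt (n := D + 1) (by omega : h1.natDegree < D + 1)]
      ring
    rw [e2]
    have h3 := ih (e - g) h1 (S.erase x) hdeg (by rw [Finset.card_erase_of_mem hx]; omega)
      (fun a ha b hb hab => hsep a (Finset.mem_of_mem_erase ha) b (Finset.mem_of_mem_erase hb) hab)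
      (by
        intro y hy
        rw [Finset.mem_erase] at hy
        have h4 := Ideal.sub_mem _ (hval y hy.2) (hval x hx)
        have h5 : h.eval y - h.eval x = (y - x) * h1.eval y := by
          conv_lhs => rw [e1]
          simp
        rw [h5] at h4
        exact mem_of_mul_mem v (hsep y hy.2 x hx hy.1) h4)
    have h6 : e - (D + 1) * g = e - g - D * g := by
      rw [Nat.sub_sub]; congr 1; ring
    rw [h6]
    exact h3

open Polynomial in
/-- the number of natural numbers at which a polynomial is small -/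
lemma card_small (v : HeightOneSpectrum O) (g D e B : ℕ) (h : O[X]) (hD : h.natDegree ≤ D)
    (T : Finset ℕ) (hB : ∀ m ∈ T, m < B) (hT : ∀ m ∈ T, h.eval (m : O) ∈ v.asIdeal ^ e)
    (hc : h.coeff D ∉ v.asIdeal ^ (e - D * g)) {δ : ℝ} (hδ : 0 < δ)
    (hsep : ∀ m m' : ℕ, m < m' → ((m' : O) - (m : O)) ∈ v.asIdeal ^ g → δ ≤ (m' : ℝ) - m) :
    (T.card : ℝ) ≤ D * (B / δ + 1) := by
  classical
  let φ : ℕ → O ⧸ (v.asIdeal ^ g) := fun m => Ideal.Quotient.mk _ (m : O)
  have hφ : ∀ m m' : ℕ, φ m = φ m' → ((m' : O) - (m : O)) ∈ v.asIdeal ^ g := by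
    intro m m' hmm
    exact Ideal.Quotient.eq.mp hmm.symm
  have h1 : (T.image φ).card ≤ D := by
    by_contra hlt
    rw [not_le] at hlt
    apply hc
    have hch : ∀ y ∈ T.image φ, ∃ m ∈ T, φ m = y := fun y hy => Finset.mem_image.mp hy
    choose! s hs1 hs2 using hch
    have hinj : Set.InjOn (fun y => ((s y : ℕ) : O)) (T.image φ : Set (O ⧸ (v.asIdeal ^ g))) := by
      intro y hy y' hy' hyy
      have h2 : φ (s y) = φ (s y') := congrArg (Ideal.Quotient.mk _) hyy
      rwa [hs2 y hy, hs2 y' hy'] at h2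
    refine coeff_mem v g D e h ((T.image φ).image fun y => ((s y : ℕ) : O)) hD ?_ ?_ ?_
    · rwa [Finset.card_image_of_injOn hinj]
    · intro x hx y hy hxy hmem
      rw [Finset.mem_image] at hx hy
      obtain ⟨a, ha, rfl⟩ := hx
      obtain ⟨b, hb, rfl⟩ := hy
      apply hxy
      have h2 : φ (s a) = φ (s b) := Ideal.Quotient.eq.mpr hmem
      rw [hs2 a ha, hs2 b hb] at h2
      rw [h2]
    · intro x hx
      rw [Finset.mem_image] at hx
      obtain ⟨a, ha, rfl⟩ := hx
      exact hT _ (hs1 a ha)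
  have h2 : (T.card : ℝ) ≤ ∑ y ∈ T.image φ, ((B : ℝ) / δ + 1) := by
    rw [Finset.card_eq_sum_card_image φ T]
    push_cast
    refine Finset.sum_le_sum fun y _ => ?_
    refine Pool.Agent.N262.DR.card_separated hδ (fun m hm => hB m (Finset.mem_filter.mp hm).1) ?_
    intro m hm m' hm' hlt
    rw [Finset.mem_filter] at hm hm'
    exact hsep m m' hlt (hφ m m' (hm.2.trans hm'.2.symm))
  refine h2.trans ?_
  rw [Finset.sum_const, nsmul_eq_mul]
  refine mul_le_mul_of_nonneg_right (by exact_mod_cast h1) (by positivity)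

end one

section line

variable {O : Type*} [CommRing O]

open Polynomial in
lemma line_coeff {ι : Type*} [Fintype ι] (Q u : ι → O) (d : ι →₀ ℕ) (D : ℕ) (hd : d.degree ≤ D) :
    (∏ i, (C (Q i) + C (u i) * X) ^ d i).natDegree ≤ D ∧
    (∏ i, (C (Q i) + C (u i) * X) ^ d i : O[X]).coeff D =
      if d.degree = D then ∏ i, u i ^ d i else 0 := by
  classical
  have h0 : ∀ i, (C (Q i) + C (u i) * X : O[X]).natDegree ≤ 1 := fun i => by
    rw [add_comm]; exact natDegree_linear_le
  have h1 : ∀ i (k : ℕ), ((C (Q i) + C (u i) * X : O[X]) ^ k).natDegree ≤ k := fun i k => by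
    refine natDegree_pow_le_of_le k (h0 i) |>.trans ?_
    simp
  have h2 : ∀ i (k : ℕ), ((C (Q i) + C (u i) * X : O[X]) ^ k).coeff k = u i ^ k := fun i k => by
    have := coeff_pow_of_natDegree_le (n := 1) (m := k) (h0 i)
    rw [mul_one] at this
    rw [this]
    congr 1
    simp
  have h3 : ∀ s : Finset ι, (∏ i ∈ s, (C (Q i) + C (u i) * X : O[X]) ^ d i).natDegree ≤
      ∑ i ∈ s, d i ∧ (∏ i ∈ s, (C (Q i) + C (u i) * X : O[X]) ^ d i).coeff (∑ i ∈ s, d i) =
        ∏ i ∈ s, u i ^ d i := by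
    intro s
    induction s using Finset.induction_on with
    | empty => simp
    | insert a s ha ih =>
      rw [Finset.prod_insert ha, Finset.prod_insert ha, Finset.sum_insert ha]
      refine ⟨natDegree_mul_le_of_le (h1 _ _) ih.1, ?_⟩
      rw [coeff_mul_add_eq_of_natDegree_le (h1 _ _) ih.1, h2, ih.2]
  have h4 := h3 Finset.univ
  have h5 : d.degree = ∑ i, d i := by
    rw [Finsupp.degree_eq_sum]
  rw [← h5] at h4
  refine ⟨h4.1.trans hd, ?_⟩
  split_ifs with h
  · rw [← h]; exact h4.2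
  · exact coeff_eq_zero_of_natDegree_lt (lt_of_le_of_lt h4.1 (lt_of_le_of_ne hd h))

lemma top_ne_zero {ι : Type*} {R : MvPolynomial ι O} (hR : R ≠ 0) :
    MvPolynomial.homogeneousComponent R.totalDegree R ≠ 0 := by
  classical
  obtain ⟨d, hd, hdd⟩ : ∃ d ∈ R.support, R.totalDegree = d.degree := by
    have h1 : R.support.Nonempty := MvPolynomial.support_nonempty.mpr hR
    obtain ⟨d, hd, h2⟩ := Finset.exists_mem_eq_sup R.support h1 (fun s => s.sum fun _ e => e)
    exact ⟨d, hd, h2⟩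
  intro h
  have h2 := congrArg (MvPolynomial.coeff d) h
  rw [MvPolynomial.coeff_homogeneousComponent, if_pos hdd.symm, MvPolynomial.coeff_zero] at h2
  exact (MvPolynomial.mem_support_iff.mp hd) h2

open Polynomial in
/-- on the lines of a general direction `R` has constant leading coefficient -/
lemma direction [IsDomain O] [Infinite O] {ι : Type*} [Fintype ι] {R : MvPolynomial ι O}
    (hR : R ≠ 0) : ∃ (u : ι → O) (D : ℕ) (a : O), a ≠ 0 ∧ ∀ Q : ι → O, ∃ h : O[X],
      h.natDegree ≤ D ∧ h.coeff D = a ∧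
        ∀ x : O, h.eval x = MvPolynomial.eval (fun s => Q s + x * u s) R := by
  classical
  obtain ⟨u, hu⟩ : ∃ u : ι → O,
      MvPolynomial.eval u (MvPolynomial.homogeneousComponent R.totalDegree R) ≠ 0 := by
    by_contra hc
    push Not at hc
    exact top_ne_zero hR (MvPolynomial.funext fun x => by rw [hc x, map_zero])
  refine ⟨u, R.totalDegree, _, hu, fun Q => ?_⟩
  have hle : ∀ d ∈ R.support, d.degree ≤ R.totalDegree := by
    intro d hd
    exact MvPolynomial.le_totalDegree hd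
  refine ⟨∑ d ∈ R.support, C (R.coeff d) * ∏ i, (C (Q i) + C (u i) * X) ^ d i, ?_, ?_, ?_⟩
  · refine natDegree_sum_le_of_forall_le _ _ fun d hd => ?_
    exact (natDegree_C_mul_le _ _).trans (line_coeff Q u d _ (hle d hd)).1
  · rw [finsetSum_coeff, MvPolynomial.homogeneousComponent_apply, map_sum, Finset.sum_filter]
    refine Finset.sum_congr rfl fun d hd => ?_
    rw [coeff_C_mul, (line_coeff Q u d _ (hle d hd)).2]
    split_ifs with h
    · rw [MvPolynomial.eval_monomial, Finsupp.prod_fintype _ _ (fun i => by simp)]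
    · rw [mul_zero]
  · intro x
    rw [eval_finsetSum, MvPolynomial.eval_eq']
    refine Finset.sum_congr rfl fun d hd => ?_
    rw [eval_mul, eval_C, eval_prod]
    congr 1
    refine Finset.prod_congr rfl fun i _ => ?_
    rw [eval_pow, eval_add, eval_mul, eval_C, eval_C, eval_X, mul_comm (u i)]

end line

section field

variable {K : Type} [Field K] [NumberField K]

lemma sz_nat_mul (m : ℕ) (z : 𝓞 K) : sz ((m : 𝓞 K) * z) ≤ m * sz z := by
  rw [Pool.Agent.N262.DR.sz_le_iff]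
  intro i
  have h2 := (Pool.Agent.N262.DR.sz_le_iff (z := z)).mp le_rfl i
  have h : (m : 𝓞 K) * z = (m : ℤ) • z := by simp
  rw [h, map_smul, Finsupp.smul_apply, smul_eq_mul, abs_mul]
  push_cast
  rw [Nat.abs_cast]
  exact mul_le_mul_of_nonneg_left h2 (by positivity)

/-- the box with different sides -/
def BxV {ι : Type*} (K : Type) [Field K] [NumberField K] (X : ι → ℕ) : Set (ι → 𝓞 K) :=
  {c | ∀ s, sz (c s) ≤ X s}

theorem BxV_aux {ι : Type*} [Fintype ι] (X : ι → ℕ) : (BxV K X).Finite ∧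
    (BxV K X).ncard ≤ ∏ s, (2 * X s + 1) ^ (finrank ℚ K) := by
  classical
  let J := Module.Free.ChooseBasisIndex ℤ (𝓞 K)
  let f : (ι → 𝓞 K) → (ι → J → ℤ) := fun c j i => (RingOfIntegers.basis K).repr (c j) i
  let T : Finset (ι → J → ℤ) := Fintype.piFinset fun s => Fintype.piFinset fun _ =>
    Finset.Icc (-(X s : ℤ)) (X s)
  have hmap : ∀ c ∈ BxV K X, f c ∈ (T : Set (ι → J → ℤ)) := by
    intro c hc
    rw [Finset.mem_coe, Fintype.mem_piFinset]
    intro j
    rw [Fintype.mem_piFinset]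
    intro i
    have := Pool.Agent.N262.DR.sz_le_iff.mp (hc j) i
    rw [abs_le] at this
    rw [Finset.mem_Icc]
    exact this
  have hinj : Set.InjOn f (BxV K X) := by
    intro c _ c' _ h
    funext j
    apply (RingOfIntegers.basis K).repr.injective
    ext i
    exact congrFun (congrFun h j) i
  have hfin : (T : Set (ι → J → ℤ)).Finite := T.finite_toSet
  refine ⟨Set.Finite.of_injOn hmap hinj hfin, ?_⟩
  refine (Set.ncard_le_ncard_of_injOn f hmap hinj hfin).trans (le_of_eq ?_)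
  rw [Set.ncard_coe_finset]
  have hc : Fintype.card J = finrank ℚ K := by
    rw [← RingOfIntegers.rank K]
    exact (Module.finrank_eq_card_chooseBasisIndex ℤ (𝓞 K)).symm
  simp only [T, Fintype.card_piFinset, Finset.prod_const, Finset.card_univ, Int.card_Icc]
  rw [hc]
  refine Finset.prod_congr rfl fun s _ => ?_
  congr 1
  omega

theorem averageV {ι : Type*} [Fintype ι] (u : ι → 𝓞 K) (ρ : ι → ℕ) (hρ : ∀ s, 1 ≤ ρ s)
    {ν A₀ : ℝ} (hA0 : 0 ≤ A₀)
    (S : ℕ → Set (ι → 𝓞 K)) (hS : ∀ B, S B ⊆ BxV K (fun s => B ^ ρ s))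
    (hA : ∀ B : ℕ, 1 ≤ B → ∀ Q : ι → 𝓞 K, ∀ T : Finset ℕ,
      (∀ m ∈ T, m < B ∧ (Q + fun s => (m : 𝓞 K) * u s) ∈ S B) →
        (T.card : ℝ) ≤ A₀ * (B : ℝ) ^ (1 - ν)) :
    ∃ C : ℝ, 0 < C ∧ ∀ B : ℕ, 1 ≤ B → ((S B).ncard : ℝ) ≤
      C * (B : ℝ) ^ ((finrank ℚ K : ℝ) * ∑ s, (ρ s : ℝ) - ν) := by
  classical
  set M : ℕ := ∑ s, sz (u s) with hM
  set d : ℕ := finrank ℚ K with hd
  refine ⟨(A₀ + 1) * ((2 * M + 3 : ℕ) : ℝ) ^ (d * Fintype.card ι), by positivity, fun B hB => ?_⟩
  have hB0 : (0 : ℝ) < B := by exact_mod_cast hB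
  have hSf : (S B).Finite := (BxV_aux _).1.subset (hS B)
  have hbig := BxV_aux (K := K) (fun s => B ^ ρ s + B * M)
  set A : ℕ := ⌊A₀ * (B : ℝ) ^ (1 - ν)⌋₊ with hAdef
  have h2 : (A : ℝ) ≤ A₀ * (B : ℝ) ^ (1 - ν) := Nat.floor_le (by positivity)
  have h1 := Pool.Agent.N340.DR.dcount hSf.toFinset hbig.1.toFinset (Finset.range B)
    (fun m => fun s => (m : 𝓞 K) * u s) A
    (by
      intro c hc m hm
      rw [Set.Finite.mem_toFinset] at hc ⊢
      rw [Finset.mem_range] at hm
      intro s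
      have hj := hS B hc s
      refine (Pool.Agent.N262.DR.sz_sub _ _).trans (Nat.add_le_add hj ?_)
      refine (sz_nat_mul m (u s)).trans (Nat.mul_le_mul hm.le ?_)
      exact Finset.single_le_sum (f := fun s => sz (u s)) (fun _ _ => Nat.zero_le _)
        (Finset.mem_univ s))
    (by
      intro Q _
      refine Nat.le_floor (hA B hB Q _ ?_)
      intro m hm
      rw [Finset.mem_filter, Set.Finite.mem_toFinset, Finset.mem_range] at hm
      exact hm)
  rw [Finset.card_range, ← Set.ncard_eq_toFinset_card _ hSf,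
    ← Set.ncard_eq_toFinset_card _ hbig.1] at h1
  have h3 : (((BxV K (fun s => B ^ ρ s + B * M)).ncard : ℕ) : ℝ) ≤
      ((2 * M + 3 : ℕ) : ℝ) ^ (d * Fintype.card ι) * (B : ℝ) ^ (d * ∑ s, ρ s) := by
    have e1 : (BxV K (fun s => B ^ ρ s + B * M)).ncard ≤
        ∏ s, ((2 * M + 3) * B ^ ρ s) ^ d := by
      refine hbig.2.trans (Finset.prod_le_prod' fun s _ => Nat.pow_le_pow_left ?_ _)
      have e2 : B ≤ B ^ ρ s := Nat.le_self_pow (by have := hρ s; omega) B
      have e3 : B * M ≤ B ^ ρ s * M := Nat.mul_le_mul_right _ e2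
      have e4 : 1 ≤ B ^ ρ s := hB.trans e2
      calc 2 * (B ^ ρ s + B * M) + 1 ≤ 2 * (B ^ ρ s + B ^ ρ s * M) + B ^ ρ s := by omega
        _ = (2 * M + 3) * B ^ ρ s := by ring
    have e5 : ∏ s, ((2 * M + 3) * B ^ ρ s) ^ d =
        (2 * M + 3) ^ (d * Fintype.card ι) * B ^ (d * ∑ s, ρ s) := by
      rw [Finset.prod_pow, Finset.prod_mul_distrib, Finset.prod_const, Finset.card_univ,
        Finset.prod_pow_eq_pow_sum, mul_pow, ← pow_mul, ← pow_mul]
      congr 2 <;> ring
    rw [e5] at e1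
    exact_mod_cast e1
  have h4 : ((S B).ncard : ℝ) * B ≤ (A₀ * (B : ℝ) ^ (1 - ν)) *
      (((2 * M + 3 : ℕ) : ℝ) ^ (d * Fintype.card ι) * (B : ℝ) ^ (d * ∑ s, ρ s)) := by
    calc ((S B).ncard : ℝ) * B ≤
          (A : ℝ) * ((BxV K (fun s => B ^ ρ s + B * M)).ncard : ℝ) := by exact_mod_cast h1
      _ ≤ _ := mul_le_mul h2 h3 (by positivity) (by positivity)
  have h5 : (B : ℝ) ^ ((d : ℝ) * ∑ s, (ρ s : ℝ) - ν) * B =
      (B : ℝ) ^ (1 - ν) * (B : ℝ) ^ (d * ∑ s, ρ s) := by
    rw [← Real.rpow_natCast (B : ℝ) (d * ∑ s, ρ s), ← Real.rpow_add hB0]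
    nth_rewrite 2 [← Real.rpow_one (B : ℝ)]
    rw [← Real.rpow_add hB0]
    congr 1
    push_cast
    ring
  have h6 : ((S B).ncard : ℝ) * B ≤
      ((A₀ + 1) * ((2 * M + 3 : ℕ) : ℝ) ^ (d * Fintype.card ι) *
      (B : ℝ) ^ ((d : ℝ) * ∑ s, (ρ s : ℝ) - ν)) * B := by
    refine h4.trans ?_
    rw [mul_assoc ((A₀ + 1) * _), h5]
    have e1 : 0 ≤ (B : ℝ) ^ (1 - ν) * (((2 * M + 3 : ℕ) : ℝ) ^ (d * Fintype.card ι) *
        (B : ℝ) ^ (d * ∑ s, ρ s)) := by positivity
    nlinarith
  exact le_of_mul_le_mul_right h6 hB0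

lemma norm_bound (v : HeightOneSpectrum (𝓞 K)) (g : ℕ) {m m' : ℕ} (hlt : m < m')
    (hm : ((m' : 𝓞 K) - (m : 𝓞 K)) ∈ v.asIdeal ^ g) :
    (g : ℝ) * lN v ≤ finrank ℚ K * Real.log ((m' : ℝ) - m) := by
  have hm' : (((m' - m : ℕ) : ℕ) : 𝓞 K) ∈ v.asIdeal ^ g := by
    rw [Nat.cast_sub hlt.le]; exact hm
  have h3 : Ideal.absNorm (v.asIdeal ^ g) ∣
      Ideal.absNorm (Ideal.span {(((m' - m : ℕ) : ℕ) : 𝓞 K)}) := by
    apply Ideal.absNorm_dvd_absNorm_of_le
    rw [Ideal.span_singleton_le_iff_mem]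
    exact hm'
  rw [Ideal.absNorm_span_singleton, map_pow] at h3
  have h4 : Algebra.norm ℤ (((m' - m : ℕ) : ℕ) : 𝓞 K) =
      ((m' - m : ℕ) : ℤ) ^ (finrank ℚ K) := by
    have := Algebra.norm_algebraMap_of_basis (RingOfIntegers.basis K) ((m' - m : ℕ) : ℤ)
    rw [← Module.finrank_eq_card_chooseBasisIndex ℤ (𝓞 K), RingOfIntegers.rank] at this
    rw [← this]
    congr 1
    simp
  rw [h4, Int.natAbs_pow, Int.natAbs_natCast] at h3
  have h5 : 0 < (m' - m) ^ (finrank ℚ K) := by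
    have : 0 < m' - m := by omega
    positivity
  have h6 := Nat.le_of_dvd h5 h3
  have hw : (0 : ℝ) < (Ideal.absNorm v.asIdeal : ℝ) := by
    have : Ideal.absNorm v.asIdeal ≠ 0 := by
      rw [Ne, Ideal.absNorm_eq_zero_iff]
      exact v.ne_bot
    exact_mod_cast Nat.pos_of_ne_zero this
  have h7 : ((Ideal.absNorm v.asIdeal : ℝ)) ^ g ≤ ((m' - m : ℕ) : ℝ) ^ (finrank ℚ K) := by
    exact_mod_cast h6
  have h8 := Real.log_le_log (by positivity) h7
  rw [Real.log_pow, Real.log_pow, Nat.cast_sub hlt.le] at h8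
  exact h8

lemma lN_pos (v : HeightOneSpectrum (𝓞 K)) : 0 < lN v := by
  apply Real.log_pos
  have h1 : Ideal.absNorm v.asIdeal ≠ 0 := by
    rw [Ne, Ideal.absNorm_eq_zero_iff]
    exact v.ne_bot
  have h2 : Ideal.absNorm v.asIdeal ≠ 1 := by
    rw [Ne, Ideal.absNorm_eq_one_iff]
    exact v.isPrime.ne_top
  have h3 : 1 < Ideal.absNorm v.asIdeal := by omega
  exact_mod_cast h3

end field

theorem t : StmPolyV := by
  classical
  intro K _ _ m n ρ hn hρ R hR v κ hκ
  obtain ⟨u, D, a, ha, hdir⟩ := direction hR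
  obtain ⟨e0, he0⟩ : ∃ e0 : ℕ, a ∉ v.asIdeal ^ e0 := by
    have h1 := Ideal.iInf_pow_eq_bot_of_isDomain v.asIdeal v.isPrime.ne_top
    by_contra hc
    push Not at hc
    have h2 : a ∈ ⨅ i, v.asIdeal ^ i := by
      rw [Submodule.mem_iInf]; exact hc
    rw [h1, Ideal.mem_bot] at h2
    exact ha h2
  set d : ℕ := finrank ℚ K with hd
  have hd0 : 0 < d := Module.finrank_pos
  have hd0' : (0 : ℝ) < d := by exact_mod_cast hd0
  have hl := lN_pos v
  set κ' : ℝ := κ / ((D + 1) * d) with hκ'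
  have hκ'0 : 0 < κ' := by positivity
  set ν : ℝ := min κ' 1 with hν
  set t0 : ℝ := (e0 + D) * lN v / ((D + 1) * d) with ht0
  have ht00 : 0 ≤ t0 := by positivity
  set A₀ : ℝ := D * (Real.exp t0 + 1) + Real.exp (e0 * lN v / κ) with hA₀
  obtain ⟨C, hC0, hC⟩ := averageV (K := K) u (fun s : (Σ i, Fin (n i)) => ρ s.1)
    (fun s => hρ s.1) (ν := ν) (A₀ := A₀) (by positivity)
    (fun B => {c | c ∈ BxV K (fun s : (Σ i, Fin (n i)) => B ^ ρ s.1) ∧ ∃ e : ℕ,
      MvPolynomial.eval c R ∈ v.asIdeal ^ e ∧ κ * Real.log B ≤ e * lN v ∧ 1 ≤ e})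
    (fun B c hc => hc.1) (by
      intro B hB Q T hT
      have hB1 : (1 : ℝ) ≤ B := by exact_mod_cast hB
      have hB0 : (0 : ℝ) < B := by linarith
      have hlog : 0 ≤ Real.log B := Real.log_nonneg hB1
      obtain ⟨h, hdeg, hcoef, hev⟩ := hdir Q
      have hex : ∃ e : ℕ, κ * Real.log B ≤ e * lN v ∧ 1 ≤ e := by
        obtain ⟨k, hk⟩ := exists_nat_gt (κ * Real.log B / lN v)
        rw [div_lt_iff₀ hl] at hk
        refine ⟨k + 1, ?_, by omega⟩
        push_cast
        nlinarith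
      set eB : ℕ := Nat.find hex with heB
      have heB1 := (Nat.find_spec hex).1
      rw [← heB] at heB1
      have hmem : ∀ x ∈ T, h.eval (x : 𝓞 K) ∈ v.asIdeal ^ eB := by
        intro x hx
        obtain ⟨e, he1, he2⟩ := (hT x hx).2.2
        have h1 : eB ≤ e := Nat.find_min' hex he2
        rw [hev]
        exact Ideal.pow_le_pow_right h1 he1
      have hb1 : (1 : ℝ) ≤ (B : ℝ) ^ (1 - ν) :=
        Real.one_le_rpow hB1 (by linarith [min_le_right κ' 1])
      rcases Nat.lt_or_ge eB e0 with hlt | hge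
      · -- `B` is bounded
        have h1 : κ * Real.log B ≤ e0 * lN v := heB1.trans
          (mul_le_mul_of_nonneg_right (by exact_mod_cast hlt.le) hl.le)
        have h2 : (B : ℝ) ≤ Real.exp (e0 * lN v / κ) := by
          rw [← Real.exp_log hB0, Real.exp_le_exp, le_div_iff₀ hκ, mul_comm]
          exact h1
        have h3 : (T.card : ℝ) ≤ B := by
          have h4 : T ⊆ Finset.range B := fun x hx => Finset.mem_range.mpr (hT x hx).1
          have h5 := Finset.card_le_card h4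
          rw [Finset.card_range] at h5
          exact_mod_cast h5
        calc (T.card : ℝ) ≤ B := h3
          _ ≤ Real.exp (e0 * lN v / κ) := h2
          _ ≤ A₀ := by
            have : 0 ≤ D * (Real.exp t0 + 1) := by positivity
            linarith
          _ ≤ A₀ * (B : ℝ) ^ (1 - ν) := le_mul_of_one_le_right (by positivity) hb1
      · set g : ℕ := (eB - e0) / (D + 1) with hg
        have hg1 : D * g ≤ eB - e0 := by
          have h1 : (D + 1) * g ≤ eB - e0 := Nat.mul_div_le _ _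
          nlinarith
        have hg2 : eB - e0 ≤ (D + 1) * g + D := by
          have h1 := Nat.div_add_mod (eB - e0) (D + 1)
          have h2 := Nat.mod_lt (eB - e0) (show 0 < D + 1 by omega)
          rw [← hg] at h1
          omega
        have hc : h.coeff D ∉ v.asIdeal ^ (eB - D * g) := by
          rw [hcoef]
          intro hc
          exact he0 (Ideal.pow_le_pow_right (by omega) hc)
        have hδ : ∀ x x' : ℕ, x < x' → ((x' : 𝓞 K) - (x : 𝓞 K)) ∈ v.asIdeal ^ g →
            Real.exp (κ' * Real.log B - t0) ≤ (x' : ℝ) - x := by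
          intro x x' hxx hmm
          have h1 := norm_bound v g hxx hmm
          have hpos : (0 : ℝ) < (x' : ℝ) - x := by
            have : (x : ℝ) < x' := by exact_mod_cast hxx
            linarith
          rw [← Real.exp_log hpos, Real.exp_le_exp]
          have h2 : ((eB : ℝ) - e0) ≤ (D + 1) * g + D := by
            have h3 : eB ≤ (D + 1) * g + D + e0 := by omega
            have h4 : (eB : ℝ) ≤ (D + 1) * g + D + e0 := by exact_mod_cast h3
            linarith
          have h3 : κ' * Real.log B - t0 =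
              (κ * Real.log B - (e0 + D) * lN v) / ((D + 1) * d) := by
            rw [hκ', ht0]; ring
          rw [h3, div_le_iff₀ (by positivity)]
          have h5 : ((eB : ℝ) - e0) * lN v ≤ ((D + 1) * g + D) * lN v :=
            mul_le_mul_of_nonneg_right h2 hl.le
          have h6 : (D + 1 : ℝ) * ((g : ℝ) * lN v) ≤
              (D + 1) * (d * Real.log ((x' : ℝ) - x)) :=
            mul_le_mul_of_nonneg_left h1 (by positivity)
          nlinarith
        have h1 := card_small v g D eB B h hdeg T (fun x hx => (hT x hx).1) hmem hc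
          (Real.exp_pos _) hδ
        have h2 : (B : ℝ) / Real.exp (κ' * Real.log B - t0) =
            Real.exp t0 * (B : ℝ) ^ (1 - κ') := by
          rw [Real.exp_sub, Real.rpow_sub hB0, Real.rpow_one, Real.rpow_def_of_pos hB0,
            mul_comm (Real.log B)]
          field_simp
        have h3 : (B : ℝ) ^ (1 - κ') ≤ (B : ℝ) ^ (1 - ν) :=
          Real.rpow_le_rpow_of_exponent_le hB1 (by linarith [min_le_left κ' 1])
        rw [h2] at h1
        have h4 : Real.exp t0 * (B : ℝ) ^ (1 - κ') + 1 ≤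
            (Real.exp t0 + 1) * (B : ℝ) ^ (1 - ν) := by
          have := mul_le_mul_of_nonneg_left h3 (Real.exp_pos t0).le
          linarith
        calc (T.card : ℝ) ≤ D * (Real.exp t0 * (B : ℝ) ^ (1 - κ') + 1) := h1
          _ ≤ D * ((Real.exp t0 + 1) * (B : ℝ) ^ (1 - ν)) :=
            mul_le_mul_of_nonneg_left h4 (by positivity)
          _ = (D * (Real.exp t0 + 1)) * (B : ℝ) ^ (1 - ν) := by ring
          _ ≤ A₀ * (B : ℝ) ^ (1 - ν) := by
            refine mul_le_mul_of_nonneg_right ?_ (by positivity)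
            rw [hA₀]
            linarith [Real.exp_pos (e0 * lN v / κ)])
  refine ⟨ν, C, by positivity, fun B hB => ?_⟩
  have h1 := hC B hB
  have h2 : ∑ s : (Σ i, Fin (n i)), (ρ s.1 : ℝ) = ∑ i, (ρ i : ℝ) * n i := by
    rw [Fintype.sum_sigma]
    refine Finset.sum_congr rfl fun i _ => ?_
    show ∑ _y : Fin (n i), (ρ i : ℝ) = _
    rw [Finset.sum_const, Finset.card_univ, Fintype.card_fin, nsmul_eq_mul, mul_comm]
  rw [h2] at h1
  refine le_trans ?_ h1
  have hfin : {c | c ∈ BxV K (fun s : (Σ i, Fin (n i)) => B ^ ρ s.1) ∧ ∃ e : ℕ,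
      MvPolynomial.eval c R ∈ v.asIdeal ^ e ∧ κ * Real.log B ≤ e * lN v ∧ 1 ≤ e}.Finite :=
    (BxV_aux _).1.subset fun c hc => hc.1
  have h3 := Set.ncard_le_ncard_of_injOn
    (s := {c : ∀ i, Fin (n i) → 𝓞 K | (∀ i, c i ∈ Bx K (n i) (B ^ ρ i)) ∧
      ∃ e : ℕ, MvPolynomial.eval (fun s => c s.1 s.2) R ∈ v.asIdeal ^ e ∧
        κ * Real.log B ≤ e * lN v ∧ 1 ≤ e})
    (t := {c | c ∈ BxV K (fun s : (Σ i, Fin (n i)) => B ^ ρ s.1) ∧ ∃ e : ℕ,
      MvPolynomial.eval c R ∈ v.asIdeal ^ e ∧ κ * Real.log B ≤ e * lN v ∧ 1 ≤ e})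
    (fun c : (∀ i, Fin (n i) → 𝓞 K) => fun s : (Σ i, Fin (n i)) => c s.1 s.2)
    (fun c hc => ⟨fun s => hc.1 s.1 s.2, hc.2⟩)
    (by
      intro c _ c' _ hcc
      funext i j
      exact congrFun hcc ⟨i, j⟩) hfin
  exact_mod_cast h3

end Pool.Agent.N690.PC.PolyV
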